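import Mathlib

set_option autoImplicit false

namespace Pool.Agent.Q16.Noeth

universe u₁ u₂ u₃ u₄

section Groebner

variable {J : Type u₁} {X : J → Type u₂} [∀ k, LinearOrder (X k)]
  {K : Type u₃} [Ring K] {M : Type u₄} [AddCommGroup M] [Module K M]

/-- leading coefficients at the word `w` -/
def lead (N : ∀ k, Submodule K (X k →₀ M)) (w : Σ k, X k) : Submodule K M where
  carrier := {m | ∃ v ∈ N w.1, v w.2 = m ∧ ∀ u, w.2 < u → v u = 0}
  zero_mem' := ⟨0, Submodule.zero_mem _, rfl, fun _ _ => rfl⟩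
  add_mem' := by
    rintro m m' ⟨v, hv, rfl, hv'⟩ ⟨v2, hv2, rfl, hv2'⟩
    exact ⟨v + v2, Submodule.add_mem _ hv hv2, rfl, fun u hu => by
      rw [Finsupp.add_apply, hv' u hu, hv2' u hu, add_zero]⟩
  smul_mem' := by
    rintro c m ⟨v, hv, rfl, hv'⟩
    exact ⟨c • v, Submodule.smul_mem _ _ hv, rfl, fun u hu => by
      rw [Finsupp.smul_apply, hv' u hu, smul_zero]⟩

theorem lead_mono {N N' : ∀ k, Submodule K (X k →₀ M)} (h : N ≤ N') (w : Σ k, X k) :
    lead N w ≤ lead N' w := by
  rintro m ⟨v, hv, h1, h2⟩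
  exact ⟨v, h _ hv, h1, h2⟩

theorem lead_map (N : ∀ k, Submodule K (X k →₀ M)) {k l : J} (θ : X k → X l)
    (hθ : StrictMono θ) (hN : ∀ v ∈ N k, v.mapDomain θ ∈ N l) (w : X k) :
    lead N ⟨k, w⟩ ≤ lead N ⟨l, θ w⟩ := by
  rintro m ⟨v, hv, rfl, h2⟩
  refine ⟨v.mapDomain θ, hN v hv, Finsupp.mapDomain_apply hθ.injective v w, ?_⟩
  intro u hu
  by_cases hr : u ∈ Set.range θ
  · obtain ⟨w', rfl⟩ := hr
    rw [Finsupp.mapDomain_apply hθ.injective]
    exact h2 w' (hθ.lt_iff_lt.1 hu)
  · exact Finsupp.mapDomain_of_notMem_range v u hr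

theorem le_of_lead_le [∀ k, Finite (X k)] {N N' : ∀ k, Submodule K (X k →₀ M)} (h : N ≤ N')
    (hl : ∀ w, lead N' w ≤ lead N w) : N' ≤ N := by
  classical
  intro k
  have key : ∀ w : X k, ∀ v ∈ N' k, (∀ u, w < u → v u = 0) → v ∈ N k := by
    intro w
    induction w using WellFoundedLT.induction with
    | ind w ih =>
      intro v hv hvw
      obtain ⟨v0, hv0, h1, h2⟩ := hl ⟨k, w⟩ ⟨v, hv, rfl, hvw⟩
      have hd : v - v0 ∈ N' k := Submodule.sub_mem _ hv (h k hv0)
      have hz : ∀ u, w ≤ u → (v - v0) u = 0 := by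
        intro u hu
        rcases hu.eq_or_lt with rfl | hlt
        · rw [Finsupp.sub_apply]
          change v w - v0 w = 0
          rw [h1]; simp
        · rw [Finsupp.sub_apply, hvw u hlt, h2 u hlt, sub_zero]
      have hmem : v - v0 ∈ N k := by
        by_cases h0 : (v - v0) = 0
        · rw [h0]; exact Submodule.zero_mem _
        · have hne : (v - v0).support.Nonempty := Finsupp.support_nonempty_iff.2 h0
          have hmax := (v - v0).support.max'_mem hne
          have hlt : (v - v0).support.max' hne < w := by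
            by_contra hc
            exact (Finsupp.mem_support_iff.1 hmax) (hz _ (not_lt.1 hc))
          refine ih _ hlt _ hd ?_
          intro u hu
          by_contra hc
          exact absurd ((v - v0).support.le_max' u (Finsupp.mem_support_iff.2 hc)) (not_le.2 hu)
      have := Submodule.add_mem _ hmem hv0
      simpa using this
  intro v hv
  by_cases h0 : v = 0
  · rw [h0]; exact Submodule.zero_mem _
  · have hne : v.support.Nonempty := Finsupp.support_nonempty_iff.2 h0
    refine key (v.support.max' hne) v hv ?_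
    intro u hu
    by_contra hc
    exact absurd (v.support.le_max' u (Finsupp.mem_support_iff.2 hc)) (not_le.2 hu)

/-- Abstract Groebner-type chain condition. -/
theorem acc_groebner [∀ k, Finite (X k)] [IsNoetherian K M]
    (Θ : ∀ k l, (X k → X l) → Prop)
    (hid : ∀ k, Θ k k (fun x => x))
    (hcomp : ∀ k l m θ η, Θ k l θ → Θ l m η → Θ k m (fun x => η (θ x)))
    (hmon : ∀ k l θ, Θ k l θ → StrictMono θ)
    (hwqo : WellQuasiOrdered (fun w w' : (Σ k, X k) => ∃ θ, Θ w.1 w'.1 θ ∧ θ w.2 = w'.2))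
    (a : ℕ → ∀ k, Submodule K (X k →₀ M)) (ha : Monotone a)
    (hcl : ∀ n k l θ, Θ k l θ → ∀ v ∈ a n k, v.mapDomain θ ∈ a n l) :
    ∃ n, ∀ m, n ≤ m → a m = a n := by
  have hpre : IsPreorder (Σ k, X k) (fun w w' => ∃ θ, Θ w.1 w'.1 θ ∧ θ w.2 = w'.2) :=
    { refl := fun w => ⟨fun x => x, hid _, rfl⟩
      trans := by
        rintro w w' w'' ⟨θ, h1, h2⟩ ⟨η, h3, h4⟩
        exact ⟨fun x => η (θ x), hcomp _ _ _ _ _ h1 h3, by change η (θ w.2) = _; rw [h2, h4]⟩ }
  by_contra hcon
  push Not at hcon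
  have hstep : ∀ n, ∃ p : ℕ × (Σ k, X k), n < p.1 ∧ ¬ lead (a p.1) p.2 ≤ lead (a n) p.2 := by
    intro n
    obtain ⟨m, hnm, hne⟩ := hcon n
    have hlt : n < m := by
      rcases hnm.eq_or_lt with rfl | h
      · exact absurd rfl hne
      · exact h
    by_contra hno
    push Not at hno
    have : a m ≤ a n := le_of_lead_le (ha hnm) (fun w => hno (m, w) hlt)
    exact hne (le_antisymm this (ha hnm))
  choose p hp1 hp2 using hstep
  let idx : ℕ → ℕ := fun i => Nat.rec 0 (fun _ n => (p n).1) i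
  have hidx : ∀ i, idx (i + 1) = (p (idx i)).1 := fun i => rfl
  have hidxm : StrictMono idx := strictMono_nat_of_lt_succ (fun i => by rw [hidx]; exact hp1 _)
  obtain ⟨g, hg⟩ := hwqo.exists_monotone_subseq (fun i => (p (idx i)).2)
  have hstr : StrictMono (fun i => lead (a (idx (g i))) ((p (idx (g i))).2)) := by
    intro i j hij
    have h1 : ¬ lead (a (idx (g i + 1))) ((p (idx (g i))).2) ≤ lead (a (idx (g i))) ((p (idx (g i))).2) := by
      rw [hidx]; exact hp2 _
    have h2 : lead (a (idx (g i))) ((p (idx (g i))).2) ≤ lead (a (idx (g i + 1))) ((p (idx (g i))).2) :=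
      lead_mono (ha (hidxm.monotone (Nat.le_succ _))) _
    have h3 : lead (a (idx (g i + 1))) ((p (idx (g i))).2) ≤ lead (a (idx (g j))) ((p (idx (g i))).2) :=
      lead_mono (ha (hidxm.monotone (Nat.succ_le_of_lt (g.strictMono hij)))) _
    have h4 : lead (a (idx (g j))) ((p (idx (g i))).2) ≤ lead (a (idx (g j))) ((p (idx (g j))).2) := by
      obtain ⟨θ, hθ, hθ'⟩ := hg i j hij.le
      have := lead_map (a (idx (g j))) θ (hmon _ _ _ hθ) (hcl _ _ _ _ hθ) (p (idx (g i))).2.2
      rw [hθ'] at this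
      exact this
    exact lt_of_lt_of_le (lt_of_le_not_ge h2 h1) (h3.trans h4)
  obtain ⟨n, hn⟩ := WellFounded.not_rel_apply_succ (r := (· > ·))
    (fun i => lead (a (idx (g i))) ((p (idx (g i))).2))
  exact hn (hstr (Nat.lt_succ_self n))

end Groebner

end Pool.Agent.Q16.Noeth
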