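import Pool.Agent.Q16.Noeth.Words
import Pool.Agent.Q16.Noeth.Groebner

set_option autoImplicit false

namespace Pool.Agent.Q16.Noeth

universe u₁ u₂ u₃ u₄ u₅ u₆

theorem OS.lex_lt {α : Type u₁} [LinearOrder α] {k l : ℕ} {f : Fin l → Fin k} (hf : OS f)
    {w w' : Fin k → α} (h : toLex w < toLex w') : toLex (w ∘ f) < toLex (w' ∘ f) := by
  obtain ⟨i, hi, hi'⟩ := h
  obtain ⟨j, hj, hj'⟩ := hf i
  refine ⟨j, fun j' hlt => hi (f j') (hj' j' hlt), ?_⟩
  change w (f j) < w' (f j)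
  rw [hj]; exact hi'

/-- Chain condition for families of submodules closed under duplications of letters. -/
theorem acc_words {J : Type u₁} (len : J → ℕ) {ι : Type u₂} {α : Type u₃} [Finite ι] [Finite α]
    (Y : J → Type u₄) (e : ∀ j, Y j → ι × (Fin (len j) → α))
    (he : ∀ j, Function.Injective (e j))
    (act : ∀ k l, (Fin (len l) → Fin (len k)) → Y k → Y l)
    (hact : ∀ k l f, OS f → ∀ y, e l (act k l f y) = ((e k y).1, (e k y).2 ∘ f))
    {K : Type u₅} [Ring K] {M : Type u₆} [AddCommGroup M] [Module K M] [IsNoetherian K M]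
    (a : ℕ → ∀ k, Submodule K (Y k →₀ M)) (ha : Monotone a)
    (hcl : ∀ n k l f, OS f → ∀ v ∈ a n k, v.mapDomain (act k l f) ∈ a n l) :
    ∃ n, ∀ m, n ≤ m → a m = a n := by
  classical
  obtain ⟨nι, ⟨eι⟩⟩ := Finite.exists_equiv_fin ι
  obtain ⟨nα, ⟨eα⟩⟩ := Finite.exists_equiv_fin α
  let _ : LinearOrder ι := LinearOrder.lift' eι eι.injective
  let _ : LinearOrder α := LinearOrder.lift' eα eα.injective
  let E : ∀ j, Y j → (ι ×ₗ (Lex (Fin (len j) → α))) := fun j y =>
    toLex ((e j y).1, toLex (e j y).2)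
  have hE : ∀ j, Function.Injective (E j) := by
    intro j y y' h
    apply he j
    have h1 : ((e j y).1, toLex (e j y).2) = ((e j y').1, toLex (e j y').2) := toLex.injective h
    have h2 := congrArg Prod.fst h1
    have h3 := congrArg Prod.snd h1
    exact Prod.ext h2 (toLex.injective h3)
  let _ : ∀ j, LinearOrder (Y j) := fun j => LinearOrder.lift' (E j) (hE j)
  have hfin : ∀ j, Finite (Y j) := fun j => Finite.of_injective (e j) (he j)
  refine acc_groebner (X := Y) (fun k l θ => ∃ f : Fin (len l) → Fin (len k), OS f ∧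
    ∀ y, e l (θ y) = ((e k y).1, (e k y).2 ∘ f)) ?_ ?_ ?_ ?_ a ha ?_
  · intro k
    exact ⟨fun i => i, OS.id _, fun y => rfl⟩
  · rintro k l m θ η ⟨f, hf, hf'⟩ ⟨g, hg, hg'⟩
    refine ⟨f ∘ g, hf.comp hg, fun y => ?_⟩
    rw [hg', hf']; rfl
  · rintro k l θ ⟨f, hf, hf'⟩ y y' hlt
    have h1 : E k y < E k y' := hlt
    change E l (θ y) < E l (θ y')
    simp only [E, hf']
    rw [Prod.Lex.toLex_lt_toLex] at h1 ⊢
    rcases h1 with h1 | ⟨h1, h2⟩
    · exact Or.inl h1
    · exact Or.inr ⟨h1, hf.lex_lt h2⟩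
  · intro s
    have hpre : IsPreorder ι (· = ·) := inferInstance
    obtain ⟨g, hg⟩ := (Finite.wellQuasiOrdered (α := ι) (· = ·)).exists_monotone_subseq
      (fun i => (e _ (s i).2).1)
    obtain ⟨m, n, hmn, hd⟩ := (dup_wqo (∅ : Set α)) (fun i => List.ofFn (e _ (s (g i)).2).2)
    obtain ⟨f, hf, hf'⟩ := hd.exists_OS
    refine ⟨g m, g n, g.strictMono hmn, act _ _ f, ⟨f, hf, hact _ _ f hf⟩, ?_⟩
    apply he
    rw [hact _ _ f hf]
    exact Prod.ext (hg m n hmn.le) hf'.symm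
  · rintro n k l θ ⟨f, hf, hf'⟩ v hv
    have : θ = act k l f := by
      funext y
      apply he
      rw [hf', hact _ _ f hf]
    rw [this]
    exact hcl n k l f hf v hv

end Pool.Agent.Q16.Noeth
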