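import Mathlib

set_option autoImplicit false

namespace Pool.Agent.Q16.Noeth

/-! ## Ordered surjections and duplications of letters in words -/

/-- `f : [l] → [k]` is an ordered surjection: each value `i` is attained, and before its first
occurrence only smaller values occur. -/
def OS {k l : ℕ} (f : Fin l → Fin k) : Prop :=
  ∀ i, ∃ j, f j = i ∧ ∀ j' < j, f j' < i

theorem OS.surjective {k l : ℕ} {f : Fin l → Fin k} (h : OS f) : Function.Surjective f :=
  fun i => let ⟨j, hj, _⟩ := h i; ⟨j, hj⟩

theorem OS.id (k : ℕ) : OS (fun i : Fin k => i) := fun i => ⟨i, rfl, fun _ h => h⟩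

theorem OS.comp {k l m : ℕ} {f : Fin l → Fin k} {g : Fin m → Fin l} (hf : OS f) (hg : OS g) :
    OS (f ∘ g) := by
  intro i
  obtain ⟨j, hj, hj'⟩ := hf i
  obtain ⟨h, hh, hh'⟩ := hg j
  exact ⟨h, by simp [hh, hj], fun h' hlt => hj' _ (hh' _ hlt)⟩

/-- `Dup S w w'`: the word `w'` arises from `w` by inserting letters each of which lies in `S` or
occurs earlier among the retained letters. -/
inductive Dup {α : Type*} : Set α → List α → List α → Prop
  | nil (S : Set α) : Dup S [] []
  | keep {S : Set α} {a : α} {w w' : List α} : Dup (insert a S) w w' → Dup S (a :: w) (a :: w')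
  | drop {S : Set α} {a : α} {w w' : List α} : a ∈ S → Dup S w w' → Dup S w (a :: w')

theorem Dup.append {α : Type*} {S : Set α} {u u' x x' : List α} (h : u.Sublist u')
    (hS : ∀ a ∈ u', a ∈ S) (hx : Dup S x x') : Dup S (u ++ x) (u' ++ x') := by
  induction h with
  | slnil => exact hx
  | cons a h ih =>
    exact Dup.drop (hS a List.mem_cons_self) (ih (fun b hb => hS b (List.mem_cons_of_mem _ hb)))
  | cons_cons a h ih =>
    have ha : a ∈ S := hS a List.mem_cons_self
    refine Dup.keep ?_
    rw [Set.insert_eq_of_mem ha]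
    exact ih (fun b hb => hS b (List.mem_cons_of_mem _ hb))

theorem sublist_wqo {α : Type*} [Finite α] : WellQuasiOrdered (List.Sublist (α := α)) := by
  have h : (Set.univ : Set α).PartiallyWellOrderedOn (· = ·) := by
    exact Set.Finite.partiallyWellOrderedOn Set.finite_univ
  have h2 := Set.PartiallyWellOrderedOn.partiallyWellOrderedOn_sublistForall₂ (· = ·) h
  intro f
  obtain ⟨m, n, hmn, h3⟩ := Set.partiallyWellOrderedOn_iff_exists_lt.1 h2 f
    (fun n x _ => Set.mem_univ x)
  refine ⟨m, n, hmn, ?_⟩
  obtain ⟨l, hl, hl'⟩ := List.sublistForall₂_iff.1 h3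
  rw [List.forall₂_eq_eq_eq] at hl
  rwa [hl]

theorem dup_wqo_aux {α : Type*} [Finite α] (n : ℕ) :
    ∀ S : Set α, (Sᶜ).ncard ≤ n → WellQuasiOrdered (Dup S) := by
  classical
  have : IsPreorder (List α) List.Sublist :=
    { refl := List.Sublist.refl, trans := fun _ _ _ => List.Sublist.trans }
  induction n with
  | zero =>
    intro S hS f
    have hS' : S = Set.univ := by
      have := (Set.ncard_eq_zero (Set.toFinite _)).1 (Nat.le_zero.1 hS)
      rwa [Set.compl_empty_iff] at this
    obtain ⟨m, k, hmk, h⟩ := sublist_wqo f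
    refine ⟨m, k, hmk, ?_⟩
    have := Dup.append (S := S) h (fun a _ => hS' ▸ Set.mem_univ a) (Dup.nil S)
    simpa using this
  | succ n ih =>
    intro S hS f
    obtain ⟨g1, hg1⟩ := sublist_wqo.exists_monotone_subseq
      (fun i => (f i).takeWhile (fun a => decide (a ∈ S)))
    obtain ⟨g2, hg2⟩ := (Finite.wellQuasiOrdered (α := Option α) (· = ·)).exists_monotone_subseq
      (fun i => ((f (g1 i)).dropWhile (fun a => decide (a ∈ S))).head?)
    have hsplit : ∀ i, f i = (f i).takeWhile (fun a => decide (a ∈ S)) ++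
        (f i).dropWhile (fun a => decide (a ∈ S)) := fun i =>
      (List.takeWhile_append_dropWhile).symm
    have hmemS : ∀ i, ∀ a ∈ (f i).takeWhile (fun a => decide (a ∈ S)), a ∈ S := by
      intro i a ha
      simpa using List.mem_takeWhile_imp ha
    rcases hh : ((f (g1 (g2 0))).dropWhile (fun a => decide (a ∈ S))).head? with _ | a
    · refine ⟨g1 (g2 0), g1 (g2 1), g1.strictMono (g2.strictMono Nat.zero_lt_one), ?_⟩
      have h1 := hg2 0 1 (Nat.zero_le 1)
      rw [hh] at h1
      have e0 := List.head?_eq_none_iff.1 hh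
      have e1 := List.head?_eq_none_iff.1 h1.symm
      rw [hsplit (g1 (g2 0)), hsplit (g1 (g2 1)), e0, e1]
      exact Dup.append (hg1 _ _ (g2.monotone (Nat.zero_le 1))) (hmemS _) (Dup.nil S)
    · have hcons : ∀ i, (f (g1 (g2 i))).dropWhile (fun a => decide (a ∈ S)) =
          a :: ((f (g1 (g2 i))).dropWhile (fun a => decide (a ∈ S))).tail := by
        intro i
        have h1 := hg2 0 i (Nat.zero_le i)
        rw [hh] at h1
        exact (List.eq_cons_of_mem_head? (by rw [← h1]; rfl))
      have haS : a ∉ S := by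
        have h3 := List.head?_dropWhile_not (fun a => decide (a ∈ S)) (f (g1 (g2 0)))
        rw [hh] at h3
        simpa using h3
      have hlt : ((insert a S)ᶜ : Set α).ncard ≤ n := by
        have h4 : ((insert a S)ᶜ : Set α).ncard < (Sᶜ).ncard := by
          apply Set.ncard_lt_ncard _ (Set.toFinite _)
          refine ⟨fun x hx hxS => hx (Set.mem_insert_of_mem _ hxS), fun hsub => ?_⟩
          exact hsub haS (Set.mem_insert a S)
        omega
      obtain ⟨m, k, hmk, hd⟩ := ih (insert a S) hlt
        (fun i => ((f (g1 (g2 i))).dropWhile (fun a => decide (a ∈ S))).tail)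
      refine ⟨g1 (g2 m), g1 (g2 k), g1.strictMono (g2.strictMono hmk), ?_⟩
      rw [hsplit (g1 (g2 m)), hsplit (g1 (g2 k)), hcons m, hcons k]
      exact Dup.append (hg1 _ _ (g2.monotone hmk.le)) (hmemS _) (Dup.keep hd)

theorem dup_wqo {α : Type*} [Finite α] (S : Set α) : WellQuasiOrdered (Dup S) :=
  dup_wqo_aux _ S le_rfl

theorem Dup.conv {α : Type*} {S : Set α} {w w' : List α} (h : Dup S w w') :
    ∀ (p p' : List α) (f : ℕ → ℕ), (∀ a ∈ S, a ∈ p) →
      (∀ j < p'.length, f j < p.length ∧ p'[j]? = p[f j]?) →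
      (∀ i < p.length, ∃ j < p'.length, f j = i ∧ ∀ j' < j, f j' < i) →
      ∃ g : ℕ → ℕ, (∀ j < (p' ++ w').length, g j < (p ++ w).length ∧
        (p' ++ w')[j]? = (p ++ w)[g j]?) ∧
      (∀ i < (p ++ w).length, ∃ j < (p' ++ w').length, g j = i ∧ ∀ j' < j, g j' < i) := by
  induction h with
  | nil S =>
    intro p p' f _ h2 h3
    refine ⟨f, ?_, ?_⟩
    · simpa using h2
    · simpa using h3
  | @keep S a w w' h ih =>
    intro p p' f h1 h2 h3
    have key := ih (p ++ [a]) (p' ++ [a]) (fun j => if j < p'.length then f j else p.length)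
      ?_ ?_ ?_
    · simpa [List.append_assoc] using key
    · intro b hb
      rcases hb with rfl | hb
      · simp
      · exact List.mem_append_left _ (h1 b hb)
    · intro j hj
      by_cases hj' : j < p'.length
      · simp only [hj', if_true]
        obtain ⟨h4, h5⟩ := h2 j hj'
        refine ⟨by simp; omega, ?_⟩
        rw [List.getElem?_append_left hj', List.getElem?_append_left h4, h5]
      · have hje : j = p'.length := by simp at hj; omega
        subst hje
        simp
    · intro i hi
      by_cases hi' : i < p.length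
      · obtain ⟨j, hj, hji, hj'⟩ := h3 i hi'
        refine ⟨j, by simp; omega, by simp [hj, hji], ?_⟩
        intro j' hlt
        have : j' < p'.length := lt_trans hlt hj
        simp only [this, if_true]
        exact hj' _ hlt
      · have hie : i = p.length := by simp at hi; omega
        subst hie
        refine ⟨p'.length, by simp, by simp, ?_⟩
        intro j' hlt
        simp only [hlt, if_true]
        exact (h2 j' hlt).1
  | @drop S a w w' ha h ih =>
    intro p p' f h1 h2 h3
    obtain ⟨i0, hi0, hi0'⟩ := List.getElem_of_mem (h1 a ha)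
    have key := ih p (p' ++ [a]) (fun j => if j < p'.length then f j else i0) h1 ?_ ?_
    · simpa [List.append_assoc] using key
    · intro j hj
      by_cases hj' : j < p'.length
      · simp only [hj', if_true]
        obtain ⟨h4, h5⟩ := h2 j hj'
        refine ⟨h4, ?_⟩
        rw [List.getElem?_append_left hj', h5]
      · have hje : j = p'.length := by simp at hj; omega
        subst hje
        simp [hi0, hi0']
    · intro i hi
      obtain ⟨j, hj, hji, hj'⟩ := h3 i hi
      refine ⟨j, by simp; omega, by simp [hj, hji], ?_⟩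
      intro j' hlt
      have : j' < p'.length := lt_trans hlt hj
      simp only [this, if_true]
      exact hj' _ hlt

theorem Dup.exists_OS {α : Type*} {k l : ℕ} {w : Fin k → α} {w' : Fin l → α}
    (h : Dup ∅ (List.ofFn w) (List.ofFn w')) : ∃ f : Fin l → Fin k, OS f ∧ w' = w ∘ f := by
  obtain ⟨g, hg1, hg2⟩ := h.conv [] [] (fun _ => 0) (by simp) (by simp) (by simp)
  simp only [List.nil_append, List.length_ofFn] at hg1 hg2
  refine ⟨fun j => ⟨g j, (hg1 j j.2).1⟩, ?_, ?_⟩
  · intro i
    obtain ⟨j, hj, hji, hj'⟩ := hg2 i i.2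
    exact ⟨⟨j, hj⟩, Fin.ext hji, fun j' hlt => hj' j' hlt⟩
  · funext j
    have h5 := (hg1 j j.2).2
    rw [List.getElem?_ofFn, List.getElem?_ofFn] at h5
    simpa [(hg1 j j.2).1] using h5

end Pool.Agent.Q16.Noeth
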